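import Mathlib

set_option autoImplicit false
open Filter Topology

namespace Pool.Agent.H792R3.MM

noncomputable section

/-- square of the constant of the quadratic block `1 + y z - x y² z²` -/
def k2 (x : ℝ) : ℝ := 3 / 2 + 1 / (4 * x) + 9 / 4 * x + x ^ 2

/-- modulation polynomials: `w ^ (-κ) * Q c w` is on the unit circle a convex combination of the
constant `a0` (weight `1 - ∑ τ`) and of `K` at colour `c` (weight `τ c`) -/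
structure Mod (K a0 : ℝ) (κ : ℕ) (Q : Fin 3 → Polynomial ℂ) : Prop where
  deg : ∀ c, (Q c).natDegree ≤ 2 * κ
  cf : ∀ c k, ‖(Q c).coeff k‖ ≤ 1
  mid : ∀ c, (Q c).coeff κ = 1
  conv : ∀ w : ℂ, ‖w‖ = 1 → ∃ τ : Fin 3 → ℝ, (∀ j, 0 ≤ τ j) ∧ (∑ j, τ j) ≤ 1 ∧
    ∀ c, (Q c).eval w = w ^ κ * (((1 - ∑ j, τ j) * a0 + K * τ c : ℝ) : ℂ)
  peak : ∀ c, ∃ w : ℂ, ‖w‖ = 1 ∧ (Q c).eval w = (K : ℂ) * w ^ κ ∧
    ∀ c', c' ≠ c → (Q c').eval w = 0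

/-- gap of block `b` -/
def NN (B b : ℕ) : ℕ := (b + B) ^ 2

/-- gap between vertex `i` and vertex `i+1` -/
def dd (B i : ℕ) : ℕ := NN B (i / 2)

/-- time between jump `i` and jump `i+1` -/
def st (x : ℝ) (B i : ℕ) : ℝ :=
  if i % 2 = 0 then Real.log (1 / x) / (NN B (i / 2) : ℝ) else 1 / (((i / 2 : ℕ) : ℝ) + B)

/-- time of jump `i` (log radius where vertices `i` and `i+1` are equal) -/
def TT (x : ℝ) (B i : ℕ) : ℝ := ∑ j ∈ Finset.range i, st x B j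

/-- first exponent belonging to vertex `i` -/
def nn (B i : ℕ) : ℕ := ∑ j ∈ Finset.range i, dd B j

/-- log of the coefficient of vertex `i` -/
def lam (x : ℝ) (B i : ℕ) : ℝ := -∑ j ∈ Finset.range i, (dd B j : ℝ) * TT x B j

/-- log of the term of vertex `i` at radius `exp t` -/
def WW (x : ℝ) (B κ i : ℕ) (t : ℝ) : ℝ := lam x B i + ((nn B i : ℝ) + κ) * t

/-- with the modulation -/
def VV (x : ℝ) (B κ i : ℕ) (t : ℝ) : ℝ := WW x B κ i t + κ * |t - TT x B i|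

/-- beginning of zone `b`; zone `b` is `SS b ≤ t ≤ SS (b+1)` -/
def SS (x : ℝ) (B b : ℕ) : ℝ := TT x B (2 * b + 1) + 1 / (2 * ((b : ℝ) + B))

/-- the three main vertices of zone `b` -/
def EE (x : ℝ) (B κ b : ℕ) (t : ℝ) : ℝ :=
  max (max (WW x B κ (2 * b + 2) t) (WW x B κ (2 * b + 3) t)) (WW x B κ (2 * b + 4) t)

/-- signs -/
def sg (i : ℕ) : ℂ := (-1) ^ (i / 2)

/-- colours -/
def col (i : ℕ) : Fin 3 := if i % 2 = 1 then 2 else if (i / 2) % 2 = 0 then 0 else 1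

/-- the polynomial belonging to vertex `i` -/
def gg (x : ℝ) (B κ : ℕ) (Q : Fin 3 → Polynomial ℂ) (i : ℕ) (z : ℂ) : ℂ :=
  sg i * ((Real.exp (lam x B i + κ * TT x B i) : ℝ) : ℂ) * z ^ (nn B i) *
    (Q (col i)).eval (z * ((Real.exp (-(TT x B i)) : ℝ) : ℂ))

/-- its coefficients -/
def cc (x : ℝ) (B κ : ℕ) (Q : Fin 3 → Polynomial ℂ) (i k : ℕ) : ℂ :=
  sg i * ((Real.exp (lam x B i + κ * TT x B i) : ℝ) : ℂ) * (Q (col i)).coeff k *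
    ((Real.exp (-(TT x B i)) : ℝ) : ℂ) ^ k

/-- exponents -/
def ee (B κ : ℕ) (p : ℕ × Fin (2 * κ + 1)) : ℕ := nn B p.1 + p.2

/-- the Taylor coefficients -/
def aa (x : ℝ) (B κ : ℕ) (Q : Fin 3 → Polynomial ℂ) (m : ℕ) : ℂ :=
  Function.extend (ee B κ) (fun p => cc x B κ Q p.1 p.2) 0 m

/-- the entire function -/
def ff (x : ℝ) (B κ : ℕ) (Q : Fin 3 → Polynomial ℂ) (z : ℂ) : ℂ := ∑' i, gg x B κ Q i z

/-- maximum term -/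
def mxT (a : ℕ → ℂ) (r : ℝ) : ℝ := ⨆ n, ‖a n‖ * r ^ n

/-- maximum modulus -/
def mxM (f : ℂ → ℂ) (r : ℝ) : ℝ := sSup ((fun z => ‖f z‖) '' Metric.sphere 0 r)

/-- standing hypotheses -/
structure Hyp (x K a0 : ℝ) (κ B : ℕ) (Q : Fin 3 → Polynomial ℂ) : Prop where
  x0 : 0 < x
  x1 : x < 1
  a0n : 0 ≤ a0
  aK : a0 * Real.sqrt (k2 x) ≤ K
  K0 : 0 < K
  md : Mod K a0 κ Q
  B1 : 2 * κ + 4 ≤ B
  B2 : Real.log (1 / x) ≤ B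
  B3 : 2 * κ * (Real.log (1 / x) + 1) ≤ B * min 1 (Real.log (1 / x))

/-! ### statements -/

/-- block inequality -/
def S_BI : Prop := ∀ x : ℝ, 0 < x → x ≤ 1 → ∀ y : ℝ, 0 ≤ y → ∀ z : ℂ, ‖z‖ = 1 →
  ‖(1 : ℂ) + y * z - ((x * y ^ 2 : ℝ) : ℂ) * z ^ 2‖ ≤ Real.sqrt (k2 x) * max (max 1 y) (x * y ^ 2)

/-- squares of geometric sums -/
def S_DQ : Prop := ∀ n : ℕ, 1 ≤ n →
  (∀ w : ℂ, ‖w‖ = 1 → (∑ j ∈ Finset.range n, w ^ j) ^ 2 =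
    w ^ (n - 1) * ((‖∑ j ∈ Finset.range n, w ^ j‖ ^ 2 : ℝ) : ℂ)) ∧
  (∀ k : ℕ, ‖((∑ j ∈ Finset.range n, (Polynomial.X : Polynomial ℂ) ^ j) ^ 2).coeff k‖ ≤ n) ∧
  ((∑ j ∈ Finset.range n, (Polynomial.X : Polynomial ℂ) ^ j) ^ 2).coeff (n - 1) = n ∧
  ((∑ j ∈ Finset.range n, (Polynomial.X : Polynomial ℂ) ^ j) ^ 2).natDegree ≤ 2 * (n - 1)

/-- three translates of the Fejer kernel -/
def S_TR : Prop := ∀ ν : ℕ, 1 ≤ ν → ∀ ω : ℂ, ω = Complex.exp (2 * Real.pi * Complex.I / 3) →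
  ∀ w : ℂ, ‖w‖ = 1 →
  ∑ c : Fin 3, ‖∑ j ∈ Finset.range (3 * ν), (w * ω ^ (c : ℕ)) ^ j‖ ^ 2 ≤ (3 * (ν : ℝ)) ^ 2

/-- existence of modulations -/
def S_MOD : Prop := ∀ K0 K : ℝ, 1 ≤ K0 → K0 < K → ∃ (κ : ℕ) (a0 : ℝ) (Q : Fin 3 → Polynomial ℂ),
  0 ≤ a0 ∧ a0 * K0 ≤ K ∧ Mod K a0 κ Q

/-- elementary facts on the sequences -/
def S_SEQ : Prop := ∀ (x : ℝ) (B κ : ℕ), 0 < x → x < 1 → 1 ≤ B →
  (∀ i t, WW x B κ (i + 1) t - WW x B κ i t = (dd B i : ℝ) * (t - TT x B i)) ∧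
  (∀ i, TT x B (i + 1) = TT x B i + st x B i) ∧
  (∀ b : ℕ, TT x B (2 * b + 1) = TT x B (2 * b) + Real.log (1 / x) / (NN B b : ℝ)) ∧
  (∀ b : ℕ, TT x B (2 * b + 2) = TT x B (2 * b + 1) + 1 / ((b : ℝ) + B)) ∧
  (∀ i, 0 < st x B i) ∧ (∀ i, st x B i ≤ (Real.log (1 / x) + 1) / B) ∧
  (StrictMono (TT x B)) ∧
  (∀ i, min (Real.log (1 / x)) B ≤ (dd B i : ℝ) * st x B i)

/-- zones cover -/
def S_ZN : Prop := ∀ (x : ℝ) (B : ℕ), 0 < x → x < 1 → 1 ≤ B → ∀ b0 : ℕ, ∃ t0 : ℝ, ∀ t : ℝ, t0 ≤ t →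
  ∃ b : ℕ, b0 ≤ b ∧ SS x B b ≤ t ∧ t ≤ SS x B (b + 1)

/-- main vertices are close in time -/
def S_DEL : Prop := ∀ (x : ℝ) (B b : ℕ) (t : ℝ), 0 < x → x < 1 → 1 ≤ B → SS x B b ≤ t →
  t ≤ SS x B (b + 1) → ∀ i, (i = 2 * b + 2 ∨ i = 2 * b + 3 ∨ i = 2 * b + 4) →
  |t - TT x B i| ≤ (Real.log (1 / x) + 2) / ((b : ℝ) + B)

/-- decay on the right of zone `b` -/
def S_DR : Prop := ∀ (x K a0 : ℝ) (κ B : ℕ) (Q : Fin 3 → Polynomial ℂ), Hyp x K a0 κ B Q →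
  ∀ (b : ℕ) (t : ℝ), SS x B b ≤ t → t ≤ SS x B (b + 1) → ∀ j : ℕ,
  VV x B κ (2 * b + 4 + j) t ≤ EE x B κ b t + κ * ((Real.log (1 / x) + 2) / ((b : ℝ) + B)) -
    j * (((b : ℝ) + B) / 2 - 1)

/-- decay on the left of zone `b` -/
def S_DLE : Prop := ∀ (x K a0 : ℝ) (κ B : ℕ) (Q : Fin 3 → Polynomial ℂ), Hyp x K a0 κ B Q →
  ∀ (b : ℕ) (t : ℝ), SS x B b ≤ t → t ≤ SS x B (b + 1) → ∀ j : ℕ, j ≤ 2 * b + 1 →
  VV x B κ (2 * b + 1 - j) t ≤ EE x B κ b t + κ * ((Real.log (1 / x) + 2) / ((b : ℝ) + B)) -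
    (((b : ℝ) + B) / 2 - 1) - j * (Real.log (1 / x) / 2)

/-- summability -/
def S_SUM : Prop := ∀ (x K a0 : ℝ) (κ B : ℕ) (Q : Fin 3 → Polynomial ℂ), Hyp x K a0 κ B Q →
  ∀ t : ℝ, Summable (fun i => Real.exp (VV x B κ i t))

/-- the rest is small -/
def S_REST : Prop := ∀ (x K a0 : ℝ) (κ B : ℕ) (Q : Fin 3 → Polynomial ℂ), Hyp x K a0 κ B Q →
  ∃ η : ℕ → ℝ, Tendsto η atTop (𝓝 0) ∧ ∀ (b : ℕ) (t : ℝ), SS x B b ≤ t → t ≤ SS x B (b + 1) →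
  (∑' i, if (i = 2 * b + 2 ∨ i = 2 * b + 3 ∨ i = 2 * b + 4) then 0
    else Real.exp (VV x B κ i t)) ≤ η b * Real.exp (EE x B κ b t)

/-- size of the terms -/
def S_GB : Prop := ∀ (x K a0 : ℝ) (κ B : ℕ) (Q : Fin 3 → Polynomial ℂ), Hyp x K a0 κ B Q →
  ∀ (i : ℕ) (t : ℝ) (z : ℂ), ‖z‖ ≤ Real.exp t →
  (∀ k, k ≤ 2 * κ → ‖cc x B κ Q i k‖ * ‖z‖ ^ (nn B i + k) ≤ Real.exp (VV x B κ i t)) ∧
  ‖gg x B κ Q i z‖ ≤ (2 * κ + 1) * Real.exp (VV x B κ i t) ∧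
  gg x B κ Q i z = ∑ k ∈ Finset.range (2 * κ + 1), cc x B κ Q i k * z ^ (nn B i + k)

/-- disjoint blocks of exponents -/
def S_INJ : Prop := ∀ (B κ : ℕ), 2 * κ + 4 ≤ B → Function.Injective (ee B κ)

/-- power series -/
def S_HS : Prop := ∀ (x K a0 : ℝ) (κ B : ℕ) (Q : Fin 3 → Polynomial ℂ), Hyp x K a0 κ B Q →
  ∀ z : ℂ, HasSum (fun m => aa x B κ Q m * z ^ m) (ff x B κ Q z)

/-- entire -/
def S_ENT : Prop := ∀ (x K a0 : ℝ) (κ B : ℕ) (Q : Fin 3 → Polynomial ℂ), Hyp x K a0 κ B Q →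
  Differentiable ℂ (ff x B κ Q)

/-- infinitely many nonzero coefficients -/
def S_INF : Prop := ∀ (x K a0 : ℝ) (κ B : ℕ) (Q : Fin 3 → Polynomial ℂ), Hyp x K a0 κ B Q →
  {m | aa x B κ Q m ≠ 0}.Infinite

/-- uniqueness of Taylor coefficients -/
def S_NP : Prop := ∀ (a : ℕ → ℂ) (p : Polynomial ℂ),
  (∀ z : ℂ, HasSum (fun m => a m * z ^ m) (p.eval z)) → ∀ m, a m = p.coeff m

/-- radial continuity of the modulations -/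
def S_RAD : Prop := ∀ (K a0 : ℝ) (κ : ℕ) (Q : Fin 3 → Polynomial ℂ), Mod K a0 κ Q →
  ∀ (c : Fin 3) (w : ℂ) (s : ℝ), ‖w‖ = 1 →
  ‖((Real.exp (-(κ * s)) : ℝ) : ℂ) * (Q c).eval (w * ((Real.exp s : ℝ) : ℂ)) - (Q c).eval w‖ ≤
    (2 * κ + 1) * (Real.exp (κ * |s|) - 1)

/-- state inequality -/
def S_ST : Prop := ∀ (x K a0 : ℝ) (κ B : ℕ) (Q : Fin 3 → Polynomial ℂ), Hyp x K a0 κ B Q →
  ∀ (w ζ : ℂ), ‖w‖ = 1 → ‖ζ‖ = 1 → ∀ c0 c1 c2 : Fin 3, c0 ≠ c1 → c1 ≠ c2 → c0 ≠ c2 →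
  ∀ A y : ℝ, 0 ≤ A → 0 ≤ y →
  ‖(A : ℂ) * (Q c0).eval w + ((A * y : ℝ) : ℂ) * ζ * (Q c1).eval w -
    ((A * (x * y ^ 2) : ℝ) : ℂ) * ζ ^ 2 * (Q c2).eval w‖ ≤ K * (A * max (max 1 y) (x * y ^ 2))

/-- the polynomial of vertex `i` in polar form -/
def S_GP : Prop := ∀ (x : ℝ) (B κ : ℕ) (Q : Fin 3 → Polynomial ℂ) (i : ℕ) (t : ℝ) (w : ℂ),
  gg x B κ Q i (((Real.exp t : ℝ) : ℂ) * w) = sg i * ((Real.exp (WW x B κ i t) : ℝ) : ℂ) *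
    w ^ (nn B i) * (((Real.exp (-(κ * (t - TT x B i))) : ℝ) : ℂ) *
      (Q (col i)).eval (w * ((Real.exp (t - TT x B i) : ℝ) : ℂ)))

/-- main part without radial dependence -/
def mainp (x : ℝ) (B κ : ℕ) (Q : Fin 3 → Polynomial ℂ) (b : ℕ) (t : ℝ) (w : ℂ) : ℂ :=
  ∑ j ∈ Finset.range 3, sg (2 * b + 2 + j) * ((Real.exp (WW x B κ (2 * b + 2 + j) t) : ℝ) : ℂ) *
    w ^ (nn B (2 * b + 2 + j)) * (Q (col (2 * b + 2 + j))).eval w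

/-- main part, upper and lower estimate -/
def S_MAIN : Prop := ∀ (x K a0 : ℝ) (κ B : ℕ) (Q : Fin 3 → Polynomial ℂ), Hyp x K a0 κ B Q →
  ∀ (b : ℕ) (t : ℝ), (∀ w : ℂ, ‖w‖ = 1 → ‖mainp x B κ Q b t w‖ ≤ K * Real.exp (EE x B κ b t)) ∧
    (∃ w : ℂ, ‖w‖ = 1 ∧ ‖mainp x B κ Q b t w‖ = K * Real.exp (EE x B κ b t))

/-- comparison of the function with its main part -/
def S_CMP : Prop := ∀ (x K a0 : ℝ) (κ B : ℕ) (Q : Fin 3 → Polynomial ℂ), Hyp x K a0 κ B Q →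
  ∃ η : ℕ → ℝ, Tendsto η atTop (𝓝 0) ∧ ∀ (b : ℕ) (t : ℝ), SS x B b ≤ t → t ≤ SS x B (b + 1) →
  ∀ w : ℂ, ‖w‖ = 1 → ‖ff x B κ Q (((Real.exp t : ℝ) : ℂ) * w) - mainp x B κ Q b t w‖ ≤
    η b * Real.exp (EE x B κ b t)

/-- maximum term -/
def S_MU : Prop := ∀ (x K a0 : ℝ) (κ B : ℕ) (Q : Fin 3 → Polynomial ℂ), Hyp x K a0 κ B Q →
  ∃ η : ℕ → ℝ, Tendsto η atTop (𝓝 0) ∧ ∀ (b : ℕ) (t : ℝ), SS x B b ≤ t → t ≤ SS x B (b + 1) →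
  Real.exp (EE x B κ b t) ≤ mxT (aa x B κ Q) (Real.exp t) ∧
  mxT (aa x B κ Q) (Real.exp t) ≤ (1 + η b) * Real.exp (EE x B κ b t)

/-- limit -/
def S_LIM : Prop := ∀ (x K a0 : ℝ) (κ B : ℕ) (Q : Fin 3 → Polynomial ℂ), Hyp x K a0 κ B Q →
  Tendsto (fun r => mxT (aa x B κ Q) r / mxM (ff x B κ Q) r) atTop (𝓝 (1 / K))

/-- final theorem, all `C` below the constant of the quadratic blocks -/
def S_FIN : Prop := ∀ x C : ℝ, 0 < x → x < 1 → 0 < C → C ^ 2 * k2 x < 1 →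
  ∃ (f : ℂ → ℂ) (a : ℕ → ℂ), Differentiable ℂ f ∧
    (∀ z : ℂ, HasSum (fun m => a m * z ^ m) (f z)) ∧ {m | a m ≠ 0}.Infinite ∧
    (¬ ∃ p : Polynomial ℂ, ∀ z, f z = p.eval z) ∧
    Tendsto (fun r => mxT a r / mxM f r) atTop (𝓝 C)

end

end Pool.Agent.H792R3.MM
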